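import Pool.Agent.AT6.Stmts2
import Pool.Agent.Helper62_AT3.LCJ
import Pool.Agent.Helper62_AT3.CO2

/-!
# Squad AT6, row CLC: the component in an idempotent of `C_H(x)` of a section component
-/

open scoped BigOperators

set_option autoImplicit false

noncomputable section

namespace Pool.Agent.PP.T6.H17

open Pool.Agent.Helper51_AWC Pool.Agent.Helper79_WRA Pool.Agent.PP Pool.Agent.PP.KF
open Pool.Agent.PP.K9 Pool.Agent.PP.K9.H97 Pool.Agent.PP.H75 Pool.Agent.PP.T3 Pool.Agent.PP.T2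
open Pool.Agent.PP.T6

attribute [local instance] Ideal.Quotient.field

section tools

theorem sumext {G : Type} [Group G] [Fintype G] (C : Subgroup G) (f : C → ℂ) (F : G → ℂ) :
    ∑ᶠ c : C, f c * F c = ∑ g : G, H75.ext0 C f g * F g := by
  classical
  have := Fintype.ofFinite C
  rw [finsum_eq_sum_of_fintype]
  have h1 : ∀ g : G, H75.ext0 C f g * F g = ∑ c : C, if (c : G) = g then f c * F c else 0 := by
    intro g
    by_cases hg : g ∈ C
    · rw [Finset.sum_eq_single (⟨g, hg⟩ : C)]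
      · rw [if_pos rfl, H75.ext0, dif_pos hg]
      · intro c _ hc
        rw [if_neg]
        intro h'
        exact hc (Subtype.ext h')
      · intro h'; exact absurd (Finset.mem_univ _) h'
    · rw [H75.ext0, dif_neg hg, zero_mul, Finset.sum_eq_zero]
      intro c _
      rw [if_neg]
      intro h'
      exact hg (h' ▸ c.2)
  rw [Finset.sum_congr rfl (fun g _ => h1 g), Finset.sum_comm]
  refine Finset.sum_congr rfl fun c _ => ?_
  simp

theorem gv_sum {G : Type} [Group G] [Fintype G] (M : Ideal (integralClosure ℤ ℂ)) [M.IsMaximal]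
    (C : Subgroup G) (w : G) (b : G → FF M) (χ : G → ℂ) :
    gv M C w b χ = ∑ g : G, hat M C b g * χ (w * g) := by
  unfold gv gbv hat
  exact sumext C _ (fun g => χ (w * g))

/-- `gv` of the conjugate -/
theorem gv_cj2 {G : Type} [Group G] [Finite G] {M : Ideal (integralClosure ℤ ℂ)} [M.IsMaximal]
    {u u' t : G} (k : G) (h : t * u' * t⁻¹ = u) {b : G → FF M}
    (hb : IsCl (fun s : Cu u' => b s)) {χ : G → ℂ} (hχ : ∀ x y, χ (y * x * y⁻¹) = χ x) :
    gv M (Cu u) (t * k * t⁻¹) (cj t b) χ = gv M (Cu u') k b χ := by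
  unfold gv gbv
  have := Fintype.ofFinite G
  classical
  rw [finsum_eq_sum_of_fintype, finsum_eq_sum_of_fintype]
  rw [← Equiv.sum_comp (T3.H62.cjE h).toEquiv]
  refine Finset.sum_congr rfl fun c _ => ?_
  have h1 := T3.H62.eh_equiv (T3.H62.cjE h) hb c
  have h2 : (fun y : Cu u => b (((T3.H62.cjE h).symm y : Cu u') : G)) =
      (fun s : Cu u => cj t b s) := rfl
  rw [h2] at h1
  show eh M (fun s : Cu u => cj t b s) (T3.H62.cjE h c) *
    χ (t * k * t⁻¹ * ((T3.H62.cjE h c : Cu u) : G)) = _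
  rw [h1]
  congr 1
  have h3 : ((T3.H62.cjE h c : Cu u) : G) = t * c * t⁻¹ := rfl
  rw [h3, ← hχ (k * c) t]
  congr 1
  group

/-- the `ℓ`-part is unique -/
theorem lp_unique {G : Type} [Group G] [Finite G] {ℓ : ℕ} [Fact ℓ.Prime] {g u x : G}
    (h : T5.Lp ℓ g u) (h' : T5.Lp ℓ g x) : u = x := by
  have hp : ℓ.Prime := Fact.out
  have hc0 : Nat.card G ≠ 0 := Nat.card_pos.ne'
  have hco : (ordProj[ℓ] (Nat.card G)).Coprime (ordCompl[ℓ] (Nat.card G)) :=
    (Nat.coprime_ordCompl hp hc0).pow_left _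
  obtain ⟨N, hN1, hN2⟩ := Nat.chineseRemainder hco 1 0
  have hpow : ∀ v : G, T5.Lp ℓ g v → g ^ N = v := by
    intro v hv
    have hg : g = v * (v⁻¹ * g) := by group
    have hcom : Commute v (v⁻¹ * g) := by
      apply Commute.mul_right
      · exact (Commute.refl v).inv_right
      · exact hv.com
    rw [hg, hcom.mul_pow]
    have h1 : v ^ N = v := by
      obtain ⟨n, hn⟩ := hv.el
      have ho : orderOf v ∣ ordProj[ℓ] (Nat.card G) := by
        obtain ⟨k, -, hk⟩ := (Nat.dvd_prime_pow hp).1 (orderOf_dvd_of_pow_eq_one hn)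
        rw [hk]
        have : ℓ ^ k ∣ Nat.card G := by
          rw [← hk]
          exact orderOf_dvd_natCard v
        exact pow_dvd_pow _ ((hp.pow_dvd_iff_le_factorization hc0).1 this)
      have h2 : N ≡ 1 [MOD orderOf v] := hN1.of_dvd ho
      have h3 := pow_eq_pow_iff_modEq.2 h2
      rw [pow_one] at h3
      exact h3
    have h2 : (v⁻¹ * g) ^ N = 1 := by
      rw [← orderOf_dvd_iff_pow_eq_one]
      have hr : (orderOf (v⁻¹ * g)).Coprime ℓ := hv.reg
      have ho : orderOf (v⁻¹ * g) ∣ Nat.card G := orderOf_dvd_natCard _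
      rw [← Nat.ordProj_mul_ordCompl_eq_self (Nat.card G) ℓ] at ho
      have ho2 := (hr.pow_right _).dvd_of_dvd_mul_left ho
      exact ho2.trans ((Nat.modEq_zero_iff_dvd).1 hN2)
    rw [h1, h2, mul_one]
  rw [← hpow u h, ← hpow x h']

theorem lp_mul {G : Type} [Group G] {ℓ : ℕ} {x s : G} (hx : El ℓ x) (hs : Commute x s)
    (hr : Reg ℓ s) : T5.Lp ℓ (x * s) x := by
  refine ⟨hx, ?_, ?_⟩
  · exact (Commute.refl x).mul_right hs
  · rw [inv_mul_cancel_left]
    exact hr

theorem lp_conj {G : Type} [Group G] {ℓ : ℕ} {g u v : G} (h : T5.Lp ℓ (u⁻¹ * g * u) v) :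
    T5.Lp ℓ g (u * v * u⁻¹) := by
  refine ⟨?_, ?_, ?_⟩
  · obtain ⟨n, hn⟩ := h.el
    refine ⟨n, ?_⟩
    rw [conj_pow, hn]
    group
  · have h2 : v * (u⁻¹ * g * u) = (u⁻¹ * g * u) * v := h.com
    show u * v * u⁻¹ * g = g * (u * v * u⁻¹)
    calc u * v * u⁻¹ * g = u * (v * (u⁻¹ * g * u)) * u⁻¹ := by group
      _ = u * ((u⁻¹ * g * u) * v) * u⁻¹ := by rw [h2]
      _ = g * (u * v * u⁻¹) := by group
  · have h3 : (u * v * u⁻¹)⁻¹ * g = u * (v⁻¹ * (u⁻¹ * g * u)) * u⁻¹ := by group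
    have h4 := h.reg
    unfold Reg at h4 ⊢
    rw [h3]
    have h5 : orderOf (u * (v⁻¹ * (u⁻¹ * g * u)) * u⁻¹) = orderOf (v⁻¹ * (u⁻¹ * g * u)) :=
      MulEquiv.orderOf_eq (MulAut.conj u) _
    rw [h5]
    exact h4

end tools

theorem clc (h1 : SvvStmt) (h2 : KrfStmt) : ClcStmt := by
  intro ℓ _ M _ hM G _ _ H v hv b hb θ hθ x κ hx hκ s hs hsr
  classical
  have := Fintype.ofFinite G
  have := Fintype.ofFinite H
  have hsx : s * x = x * s := Subgroup.mem_centralizer_singleton_iff.1 hs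
  -- the class function `ψ`
  obtain ⟨ψ, hψ⟩ : ∃ ψ : H → ℂ, ∀ c : H, ψ c = sv M ℓ v b θ ((x * c : H) : G) := ⟨_, fun _ => rfl⟩
  have e1 : gv M (Cu x) (x * s) κ (fun t : H => sv M ℓ v b θ t) = gv M (Cu x) s κ ψ := by
    rw [gv_sum, gv_sum]
    refine Finset.sum_congr rfl fun g _ => ?_
    rw [hψ, mul_assoc]
  have hxG : El ℓ (x : G) := by
    obtain ⟨n, hn⟩ := hx
    exact ⟨n, by rw [← Subgroup.coe_pow, hn, Subgroup.coe_one]⟩
  have hcomm : ∀ c : H, c ∈ Cu x → Commute (x : G) (c : G) := by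
    intro c hc
    have := Subgroup.mem_centralizer_singleton_iff.1 hc
    show (x : G) * c = c * x
    rw [← Subgroup.coe_mul, ← Subgroup.coe_mul, this]
  have hregG : ∀ c : H, Reg ℓ c → Reg ℓ (c : G) := by
    intro c hc
    unfold Reg at hc ⊢
    rwa [Subgroup.orderOf_coe]
  have hlp : ∀ c : H, c ∈ Cu x → Reg ℓ c → T5.Lp ℓ ((x * c : H) : G) x := by
    intro c hc hcr
    rw [Subgroup.coe_mul]
    exact lp_mul hxG (hcomm c hc) (hregG c hcr)
  have hψcl : ∀ a ∈ Cu x, ∀ y ∈ Cu x, ψ (y * a * y⁻¹) = ψ a := by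
    intro a _ y hy
    rw [hψ, hψ]
    have hyx : y * x = x * y := Subgroup.mem_centralizer_singleton_iff.1 hy
    have : x * (y * a * y⁻¹) = y * (x * a) * y⁻¹ := by
      rw [← mul_assoc, ← mul_assoc, ← hyx]
      group
    rw [this]
    exact (h1 ℓ M hM G v b hb θ hθ).2.2.1 _ _
  constructor
  · intro w hw
    have hb' : Ix (Cu (x : G)) (cj w b) := by
      apply T3.H62.ix_cj _ hb
      intro y
      rw [Subgroup.mem_centralizer_singleton_iff, Subgroup.mem_centralizer_singleton_iff, ← hw]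
      constructor
      · intro h
        calc w⁻¹ * y * w * v = w⁻¹ * (y * (w * v * w⁻¹)) * w := by group
          _ = w⁻¹ * ((w * v * w⁻¹) * y) * w := by rw [h]
          _ = v * (w⁻¹ * y * w) := by group
      · intro h
        calc y * (w * v * w⁻¹) = w * (w⁻¹ * y * w * v) * w⁻¹ := by group
          _ = w * (v * (w⁻¹ * y * w)) * w⁻¹ := by rw [h]
          _ = w * v * w⁻¹ * y := by group
    obtain ⟨φ, hφ⟩ : ∃ φ : H → ℂ, ∀ c : H, φ c = gv M (Cu (x : G)) ((x * c : H) : G) (cj w b) θ :=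
      ⟨_, fun _ => rfl⟩
    have hφcl : ∀ a ∈ Cu x, ∀ y ∈ Cu x, φ (y * a * y⁻¹) = φ a := by
      intro a _ y hy
      rw [hφ, hφ]
      have hyx : y * x = x * y := Subgroup.mem_centralizer_singleton_iff.1 hy
      have e : x * (y * a * y⁻¹) = y * (x * a) * y⁻¹ := by
        rw [← mul_assoc, ← mul_assoc, ← hyx]
        group
      have hyG : (y : G) ∈ Cu (x : G) := by
        rw [Subgroup.mem_centralizer_singleton_iff, ← Subgroup.coe_mul, ← Subgroup.coe_mul, hyx]
      have hyc : (y : G) * (x : G) * (y : G)⁻¹ = x := by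
        rw [mul_inv_eq_iff_eq_mul]
        exact Subgroup.mem_centralizer_singleton_iff.1 hyG
      have h3 := gv_cj2 (M := M) ((x * a : H) : G) hyc hb'.idem.1 hθ
      rw [hb'.inv hyG] at h3
      rw [e]
      exact h3
    have hreg : ∀ c ∈ Cu x, Reg ℓ c → ψ c = φ c := by
      intro c hc hcr
      rw [hψ, hφ]
      have h3 := (h1 ℓ M hM G v b hb θ hθ).2.2.2.2 w ((x * c : H) : G)
      rw [hw] at h3
      rw [← h3]
      have h4 := (h1 ℓ M hM G (x : G) (cj w b) hb' θ hθ).1 ((x * c : H) : G) 1 (by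
        rw [inv_one, one_mul, mul_one]
        exact hlp c hc hcr)
      rw [inv_one, one_mul, mul_one] at h4
      exact h4
    have h5 := h2 ℓ M hM H (Cu x) κ hκ (fun c => ψ c - φ c)
      (fun a ha y hy => by rw [hψcl a ha y hy, hφcl a ha y hy])
      (fun c hc hcr => by rw [hreg c hc hcr, sub_self]) s hs hsr
    have h6 : gv M (Cu x) s κ ψ = gv M (Cu x) s κ φ := by
      rw [gv_sum] at h5 ⊢
      rw [gv_sum, ← sub_eq_zero, ← Finset.sum_sub_distrib, ← h5]
      refine Finset.sum_congr rfl fun g _ => ?_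
      ring
    rw [e1, h6, gv_sum]
    -- the left side as a double sum over `G`
    have h7 : ∑ g : H, hat M (Cu x) κ g * φ (s * g) =
        ∑ g : G, H75.ext0 H (hat M (Cu x) κ) g *
          ∑ d : G, hat M (Cu (x : G)) (cj w b) d * θ ((x : G) * ((s : G) * g) * d) := by
      rw [← sumext H (hat M (Cu x) κ) (fun g =>
        ∑ d : G, hat M (Cu (x : G)) (cj w b) d * θ ((x : G) * ((s : G) * g) * d)),
        finsum_eq_sum_of_fintype]
      refine Finset.sum_congr rfl fun g _ => ?_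
      rw [hφ, gv_sum]
      rfl
    rw [h7]
    unfold T8.fv mulF
    rw [finsum_eq_sum_of_fintype]
    have h8 : ∀ g : G, (∑ᶠ t, H75.ext0 H (hat M (Cu x) κ) t *
        hat M (Cu (x : G)) (cj w b) (t⁻¹ * g)) * θ (((x * s : H) : G) * g) =
        ∑ t : G, H75.ext0 H (hat M (Cu x) κ) t *
          (hat M (Cu (x : G)) (cj w b) (t⁻¹ * g) * θ (((x * s : H) : G) * g)) := by
      intro g
      rw [finsum_eq_sum_of_fintype, Finset.sum_mul]
      refine Finset.sum_congr rfl fun t _ => ?_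
      ring
    rw [Finset.sum_congr rfl (fun g _ => h8 g), Finset.sum_comm]
    refine Finset.sum_congr rfl fun t _ => ?_
    rw [← Finset.mul_sum]
    congr 1
    rw [← Equiv.sum_comp (Equiv.mulLeft t) (fun g => hat M (Cu (x : G)) (cj w b) (t⁻¹ * g) *
      θ (((x * s : H) : G) * g))]
    refine Finset.sum_congr rfl fun d _ => ?_
    rw [Equiv.coe_mulLeft, inv_mul_cancel_left, Subgroup.coe_mul]
    congr 2
    group
  · intro hno
    rw [e1]
    apply h2 ℓ M hM H (Cu x) κ hκ ψ hψcl _ s hs hsr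
    intro c hc hcr
    rw [hψ]
    apply (h1 ℓ M hM G v b hb θ hθ).2.1
    intro u hu
    exact hno u (lp_unique (lp_conj hu) (hlp c hc hcr))

end Pool.Agent.PP.T6.H17
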