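import Pool.Agent.AT6.Stmts1

/-!
# Squad AT6, row OBZ: sums over the orbits of a conjugation action
-/

open scoped BigOperators

noncomputable section

namespace Pool.Agent.PP.T6.H17

open Pool.Agent.Helper51_AWC Pool.Agent.Helper79_WRA Pool.Agent.PP Pool.Agent.PP.KF
open Pool.Agent.PP.K9 Pool.Agent.PP.K9.H97 Pool.Agent.PP.H75 Pool.Agent.PP.T3 Pool.Agent.PP.T2
open Pool.Agent.PP.T6

/-- the conjugates of `x` by elements of `D` -/
def orb {G : Type} [Group G] (D : Subgroup G) (x : G) : Set G := {y | ∃ d ∈ D, y = d * x * d⁻¹}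

theorem orb_ncard {G : Type} [Group G] [Finite G] (D : Subgroup G) (x : G) :
    (orb D x).ncard = (D ⊓ Cu x).relIndex D := by
  let act : MulAction D G := MulAction.compHom G ((MulAut.conj : G →* MulAut G).comp D.subtype)
  have hs : ∀ (d : D) (y : G), d • y = (d : G) * y * (d : G)⁻¹ := fun d y => rfl
  have h1 : MulAction.orbit D x = orb D x := by
    ext y
    constructor
    · rintro ⟨d, rfl⟩
      exact ⟨d, d.2, hs d x⟩
    · rintro ⟨d, hd, rfl⟩
      exact ⟨⟨d, hd⟩, hs _ _⟩
  have h2 : MulAction.stabilizer D x = (D ⊓ Cu x).subgroupOf D := by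
    ext d
    rw [MulAction.mem_stabilizer_iff, Subgroup.mem_subgroupOf, Subgroup.mem_inf,
      Subgroup.mem_centralizer_singleton_iff, hs]
    constructor
    · intro h
      refine ⟨d.2, ?_⟩
      rw [mul_inv_eq_iff_eq_mul] at h
      exact h
    · intro h
      rw [mul_inv_eq_iff_eq_mul]
      exact h.2
  rw [← h1, ← MulAction.index_stabilizer, h2, Subgroup.relIndex]

theorem dv_add {M : Ideal (integralClosure ℤ ℂ)} [M.IsMaximal] {m a b : ℂ} (ha : Dv M m a)
    (hb : Dv M m b) : Dv M m (a + b) := by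
  obtain ⟨s, hs, rfl⟩ := ha
  obtain ⟨t, ht, rfl⟩ := hb
  exact ⟨s + t, (RM M).add_mem hs ht, by ring⟩

theorem obz : ObzStmt := by
  intro M _ G _ _ D S hS F hF m
  generalize hn : S.ncard = n
  induction n using Nat.strong_induction_on generalizing S with
  | _ n ih =>
    intro hD
    rcases S.eq_empty_or_nonempty with rfl | ⟨x, hx⟩
    · rw [finsum_mem_empty]
      exact ⟨0, (RM M).zero_mem, by ring⟩
    · have hsub : orb D x ⊆ S := by
        rintro y ⟨d, hd, rfl⟩
        exact hS d hd x hx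
      have hxo : x ∈ orb D x := ⟨1, D.one_mem, by group⟩
      have hsplit : ∑ᶠ (y : G) (_ : y ∈ S), F y =
          ∑ᶠ (y : G) (_ : y ∈ orb D x), F y + ∑ᶠ (y : G) (_ : y ∈ S \ orb D x), F y := by
        rw [← finsum_mem_union disjoint_sdiff_self_right (Set.toFinite _) (Set.toFinite _),
          Set.union_sdiff_cancel hsub]
      have horb : ∑ᶠ (y : G) (_ : y ∈ orb D x), F y = ((D ⊓ Cu x).relIndex D : ℕ) * F x := by
        have h1 : ∑ᶠ (y : G) (_ : y ∈ orb D x), F y = ∑ᶠ (y : G) (_ : y ∈ orb D x), F x := by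
          apply finsum_mem_congr rfl
          rintro y ⟨d, hd, rfl⟩
          exact hF d hd x
        rw [h1, finsum_mem_eq_finite_toFinset_sum _ (Set.toFinite _), Finset.sum_const,
          nsmul_eq_mul, ← Set.ncard_eq_toFinset_card, orb_ncard]
      rw [hsplit, horb]
      apply dv_add (hD x hx)
      apply ih (S \ orb D x).ncard
      · rw [← hn]
        apply Set.ncard_lt_ncard _ (Set.toFinite _)
        refine ⟨Set.sdiff_subset, fun h => ?_⟩
        exact (h hx).2 hxo
      · rintro d hd y ⟨hy, hyo⟩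
        refine ⟨hS d hd y hy, ?_⟩
        rintro ⟨d', hd', h⟩
        apply hyo
        refine ⟨d⁻¹ * d', D.mul_mem (D.inv_mem hd) hd', ?_⟩
        have : y = d⁻¹ * (d * y * d⁻¹) * d := by group
        rw [this, h]
        group
      · rfl
      · intro y hy
        exact hD y hy.1

end Pool.Agent.PP.T6.H17
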